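import Pool.Agent.Q169.ZD.Stm

/-!
# Project ZD, jobs ANA, CONT, SUPER
-/

set_option autoImplicit false

open scoped InnerProductSpace

namespace Pool.Agent.Q58.ZD

open Pool.Agent.Q169.ZD
open Pool.Agent.H496R3.ZS (Ell permIso dl dl_apply inner_dl_left)

noncomputable section

theorem ana : S_ANA := by
  classical
  intro I G _ U a b σ ha hb hU h t
  obtain ⟨η, hη, h0⟩ := h
  have hf : AnalyticOnNhd ℝ (fun t : ℝ => ∑ j, σ j / ∑ u ∈ U j, a u * b u ^ t) Set.univ := by
    intro t _
    apply Finset.analyticAt_fun_sum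
    intro j _
    have hden : AnalyticAt ℝ (fun t : ℝ => ∑ u ∈ U j, a u * b u ^ t) t := by
      apply Finset.analyticAt_fun_sum
      intro u _
      have h1 : (fun t : ℝ => a u * b u ^ t) = fun t : ℝ => a u * Real.exp (Real.log (b u) * t) := by
        funext s
        rw [Real.rpow_def_of_pos (hb u)]
      rw [h1]
      fun_prop
    apply analyticAt_const.div hden
    apply ne_of_gt
    apply Finset.sum_pos _ (hU j)
    intro u _
    exact mul_pos (ha u) (Real.rpow_pos_of_pos (hb u) _)
  have h2 := hf.eqOn_zero_of_preconnected_of_eventuallyEq_zero isPreconnected_univ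
    (Set.mem_univ 0) (by
      filter_upwards [Metric.ball_mem_nhds (0 : ℝ) hη] with s hs
      rw [Metric.mem_ball, Real.dist_eq, sub_zero] at hs
      exact h0 s hs)
  exact h2 (Set.mem_univ t)

theorem cont (G : Type) [Group G] (E : Ext G) (I : Type) [Fintype I] (C : Cx E I) :
    S_CONT G E I C := by
  classical
  intro q₀ p h0 hp
  constructor
  · intro t
    refine ⟨?_, ?_, ?_, ?_, ?_, ?_⟩
    · intro g
      exact mul_pos (h0.pos g) (Real.rpow_pos_of_pos (hp.pos g) _)
    · rw [h0.one, hp.one, Real.one_rpow, mul_one]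
    · intro h hh g
      rw [h0.zero_mul h hh, hp.zero_mul h hh]
    · intro h hh g
      rw [h0.mul_zero h hh, hp.mul_zero h hh]
    · intro s hs g hg
      rw [h0.mul s hs g hg, hp.mul s hs g hg, Real.mul_rpow (hp.pos g).le (hp.pos s).le]
      ring
    · intro s hs g hg
      rw [h0.smul s hs g hg, hp.smul s hs g hg, Real.mul_rpow (hp.pos s).le (hp.pos g).le]
      ring
  · have hc : ∀ g, Continuous fun t : ℝ => q₀ g * p g ^ t := fun g =>
      continuous_const.mul (Real.continuous_const_rpow (hp.pos g).ne')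
    have hw : ∀ j, Continuous fun t : ℝ => C.wt (fun g => q₀ g * p g ^ t) j := fun j =>
      continuous_finsetSum _ fun u _ => hc u
    have hw0 : ∀ j (t : ℝ), C.wt (fun g => q₀ g * p g ^ t) j ≠ 0 := by
      intro j t
      apply ne_of_gt
      apply Finset.sum_pos
      · intro u _
        exact mul_pos (h0.pos u) (Real.rpow_pos_of_pos (hp.pos u) _)
      · exact ⟨1, (C.mem_U j 1).mpr (Subgroup.one_mem _)⟩
    unfold Cx.P
    refine continuous_finsetSum _ fun j _ => continuous_finsetSum _ fun u _ =>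
      continuous_finsetSum _ fun v _ => ?_
    refine Continuous.fun_smul ?_ continuous_const
    refine Complex.continuous_ofReal.comp ?_
    exact ((Real.continuous_sqrt.comp (hc u)).mul (Real.continuous_sqrt.comp (hc v))).div (hw j)
      (hw0 j)

theorem super (V : Type) [NormedAddCommGroup V] [NormedSpace ℂ V] : S_SUPER V := by
  intro A τ K hadd hmul hsm hτ hK P D D' e hP hD hD' he hPP hPDP hPDP' hDDP hPDD hePc heD heD' c hX
  simp only [← ContinuousLinearMap.mul_def] at *
  set d : V →L[ℂ] V := D * P with hd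
  set d' : V →L[ℂ] V := P * D' with hd'
  set Δ : V →L[ℂ] V := P * (D' * (D * P)) + D * (P * D') with hΔ
  have hΔ' : Δ = d' * d + d * d' := by
    rw [hΔ, hd, hd']
    have : D * P * (P * D') = D * (P * P) * D' := by noncomm_ring
    rw [this, hPP]
    noncomm_ring
  have e1 : P * d = d := hPDP
  have e2 : d * P = d := by rw [hd, mul_assoc, hPP]
  have e3 : P * d' = d' := by rw [hd', ← mul_assoc, hPP]
  have e4 : d' * P = d' := by rw [hd', mul_assoc]; exact hPDP'
  have e5 : d * d = 0 := by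
    rw [hd, mul_assoc, hPDP]
    exact hDDP
  have e6 : d' * d' = 0 := by
    have : P * D' * (P * D') = P * (D' * P) * D' := by noncomm_ring
    rw [hd', this, hPDP', mul_assoc]
    exact hPDD
  have e7 : e * d = -(d * e) := by
    rw [hd, ← mul_assoc, heD, neg_mul, mul_assoc, hePc, mul_assoc]
  have e8 : e * d' = -(d' * e) := by
    rw [hd', ← mul_assoc, hePc, mul_assoc, heD', mul_neg, mul_assoc]
  set X : V →L[ℂ] V := P - c • Δ with hXd
  have x1 : X * d = d * X := by
    rw [hXd, sub_mul, mul_sub, e1, e2, smul_mul_assoc, mul_smul_comm, hΔ', add_mul, mul_add,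
      mul_assoc d' d d, e5, mul_zero, zero_add, ← mul_assoc d d d', e5, zero_mul, add_zero,
      mul_assoc]
  have x2 : X * d' = d' * X := by
    rw [hXd, sub_mul, mul_sub, e3, e4, smul_mul_assoc, mul_smul_comm, hΔ', add_mul, mul_add,
      mul_assoc d d' d', e6, mul_zero, add_zero, ← mul_assoc d' d' d, e6, zero_mul, zero_add,
      mul_assoc]
  have x3 : X * P = X := by
    rw [hXd, sub_mul, hPP, smul_mul_assoc, hΔ', add_mul, mul_assoc d' d P, e2, mul_assoc d d' P, e4]
  have hdA : d ∈ A := hmul _ hD _ hP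
  have hd'A : d' ∈ A := hmul _ hP _ hD'
  have hΔA : Δ ∈ A := by
    rw [hΔ']
    exact hadd _ (hmul _ hd'A _ hdA) _ (hmul _ hdA _ hd'A)
  have hXA : X ∈ A := by
    rw [hXd, sub_eq_add_neg, ← neg_smul]
    exact hadd _ hP _ (hsm _ _ hΔA)
  have hY : ∀ n : ℕ, P * X ^ n ∈ A ∧ (P * X ^ n) * d = d * (P * X ^ n) ∧
      (P * X ^ n) * d' = d' * (P * X ^ n) ∧ (P * X ^ n) * P = P * X ^ n := by
    intro n
    induction n with
    | zero =>
      rw [pow_zero, mul_one]
      exact ⟨hP, e1.trans e2.symm, e3.trans e4.symm, hPP⟩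
    | succ n ih =>
      obtain ⟨i1, i2, i3, i4⟩ := ih
      rw [pow_succ, ← mul_assoc]
      refine ⟨hmul _ i1 _ hXA, ?_, ?_, ?_⟩
      · rw [mul_assoc, x1, ← mul_assoc, i2, mul_assoc]
      · rw [mul_assoc, x2, ← mul_assoc, i3, mul_assoc]
      · rw [mul_assoc, x3]
  have hstep : ∀ n : ℕ, τ (e * (P * X ^ n)) = τ (e * (P * X ^ (n + 1))) := by
    intro n
    obtain ⟨i1, i2, i3, i4⟩ := hY n
    set Y := P * X ^ n with hYd
    have h1 : τ (e * Y * (d * d')) = -τ (e * Y * (d' * d)) := by
      have h2 : e * Y * (d * d') = (e * Y * d) * d' := by noncomm_ring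
      rw [h2, hτ _ (hmul _ (hmul _ he _ i1) _ hdA) _ hd'A]
      have h3 : d' * (e * Y * d) = -(e * Y * (d' * d)) := by
        have h4 : d' * (e * Y * d) = (d' * e) * Y * d := by noncomm_ring
        have h5 : d' * e = -(e * d') := by rw [e8, neg_neg]
        rw [h4, h5]
        have h6 : -(e * d') * Y * d = -(e * (d' * Y) * d) := by noncomm_ring
        rw [h6, ← i3]
        noncomm_ring
      rw [h3, map_neg]
    have h2 : τ (e * Y * Δ) = 0 := by
      rw [hΔ', mul_add, map_add, h1]
      ring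
    have h3 : e * (P * X ^ (n + 1)) = e * Y - c • (e * Y * Δ) := by
      rw [pow_succ, ← mul_assoc P, ← hYd]
      conv_lhs => rw [hXd]
      rw [mul_sub, i4, mul_smul_comm, mul_sub, mul_smul_comm, mul_assoc e Y Δ]
    rw [h3, map_sub, map_smul, h2]
    simp
  have hall : ∀ n : ℕ, τ (e * P) = τ (e * (P * X ^ n)) := by
    intro n
    induction n with
    | zero => rw [pow_zero, mul_one]
    | succ n ih => rw [ih, hstep]
  have hb : ∀ n : ℕ, ‖τ (e * P)‖ ≤ |K| * (‖e‖ * ‖P‖) * ‖X‖ ^ n := by
    intro n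
    rw [hall n]
    calc ‖τ (e * (P * X ^ n))‖ ≤ K * ‖e * (P * X ^ n)‖ := hK _
      _ ≤ |K| * ‖e * (P * X ^ n)‖ := mul_le_mul_of_nonneg_right (le_abs_self K) (norm_nonneg _)
      _ ≤ |K| * (‖e‖ * (‖P‖ * ‖X‖ ^ n)) := by
          apply mul_le_mul_of_nonneg_left _ (abs_nonneg K)
          refine (norm_mul_le _ _).trans ?_
          apply mul_le_mul_of_nonneg_left _ (norm_nonneg _)
          rcases Nat.eq_zero_or_pos n with hn | hn
          · rw [hn, pow_zero, pow_zero, mul_one, mul_one]
          · refine (norm_mul_le _ _).trans ?_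
            exact mul_le_mul_of_nonneg_left (norm_pow_le' _ hn) (norm_nonneg _)
      _ = _ := by ring
  have hlim : Filter.Tendsto (fun n : ℕ => |K| * (‖e‖ * ‖P‖) * ‖X‖ ^ n) Filter.atTop (nhds 0) := by
    have := (tendsto_pow_atTop_nhds_zero_of_lt_one (norm_nonneg X) hX).const_mul
      (|K| * (‖e‖ * ‖P‖))
    rwa [mul_zero] at this
  have h0 : ‖τ (e * P)‖ ≤ 0 := ge_of_tendsto' hlim hb
  exact norm_le_zero_iff.mp h0

end

end Pool.Agent.Q58.ZD
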