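import Pool.Agent.Q169.ZD.Stm

/-!
# Project ZD, jobs GAP and SMALL
-/

set_option autoImplicit false

open scoped InnerProductSpace

namespace Pool.Agent.Q58.ZD

open Pool.Agent.Q169.ZD

noncomputable section

variable {V : Type} [NormedAddCommGroup V] [InnerProductSpace ℂ V] [CompleteSpace V]

lemma app1 {P D : V →L[ℂ] V} (h : P ∘L D ∘L P = D ∘L P) (x : V) : P (D (P x)) = D (P x) := by
  have := ContinuousLinearMap.ext_iff.mp h x
  simpa using this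

lemma idem {P : V →L[ℂ] V} (h : P ∘L P = P) (x : V) : P (P x) = P x := by
  have := ContinuousLinearMap.ext_iff.mp h x
  simpa using this

lemma selfadj {P : V →L[ℂ] V} (h : ContinuousLinearMap.adjoint P = P) (x y : V) :
    ⟪x, P y⟫_ℂ = ⟪P x, y⟫_ℂ := by
  conv_rhs => rw [← h]
  rw [ContinuousLinearMap.adjoint_inner_left]

theorem gap (V : Type) [NormedAddCommGroup V] [InnerProductSpace ℂ V] [CompleteSpace V] :
    S_GAP V := by
  intro P D hPP hPa hPDP hDDP hex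
  set M : Submodule ℂ V := LinearMap.ker ((ContinuousLinearMap.id ℂ V - P : V →L[ℂ] V) : V →ₗ[ℂ] V)
    with hM
  have hMm : ∀ x, x ∈ M ↔ P x = x := by
    intro x
    rw [hM, LinearMap.mem_ker]
    simp only [ContinuousLinearMap.coe_coe, ContinuousLinearMap.sub_apply,
      ContinuousLinearMap.id_apply, sub_eq_zero]
    exact eq_comm
  set Z : Submodule ℂ V := M ⊓ LinearMap.ker (D : V →ₗ[ℂ] V) with hZ
  have hZm : ∀ x, x ∈ Z ↔ P x = x ∧ D x = 0 := by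
    intro x
    rw [hZ, Submodule.mem_inf, hMm, LinearMap.mem_ker]
    rfl
  have hMc : IsClosed (M : Set V) :=
    (ContinuousLinearMap.isClosed_ker (ContinuousLinearMap.id ℂ V - P : V →L[ℂ] V))
  have hZc : IsClosed (Z : Set V) := by
    rw [hZ, Submodule.coe_inf]
    exact hMc.inter (ContinuousLinearMap.isClosed_ker D)
  have : CompleteSpace M := hMc.completeSpace_coe
  have : CompleteSpace Z := hZc.completeSpace_coe
  have hDM : ∀ x, P x = x → P (D x) = D x ∧ D (D x) = 0 := by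
    intro x hx
    constructor
    · have := app1 hPDP x
      rwa [hx] at this
    · have := ContinuousLinearMap.ext_iff.mp hDDP x
      simpa [hx] using this
  set f : M →L[ℂ] Z := (D ∘L M.subtypeL).codRestrict Z (fun x => by
    rw [hZm]
    exact hDM x ((hMm x).mp x.2)) with hf
  have hfa : ∀ x : M, ((f x : Z) : V) = D x := fun x => rfl
  have hsurj : Function.Surjective f := by
    intro z
    obtain ⟨h1, h2⟩ := (hZm z).mp z.2
    obtain ⟨y, hy1, hy2⟩ := hex z h1 h2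
    refine ⟨⟨y, (hMm y).mpr hy1⟩, ?_⟩
    apply Subtype.ext
    rw [hfa]
    exact hy2
  obtain ⟨C, hC, hpre⟩ := f.exists_preimage_norm_le hsurj
  have hpre' : ∀ z : V, P z = z → D z = 0 → ∃ y, P y = y ∧ D y = z ∧ ‖y‖ ≤ C * ‖z‖ := by
    intro z h1 h2
    obtain ⟨y, hy1, hy2⟩ := hpre ⟨z, (hZm z).mpr ⟨h1, h2⟩⟩
    refine ⟨y, (hMm y).mp y.2, ?_, hy2⟩
    rw [← hfa, hy1]
  refine ⟨C * (1 + C * ‖D‖) + C, by positivity, ?_⟩
  intro x hx
  obtain ⟨hx1, hx2⟩ := hDM x hx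
  obtain ⟨x', hx'1, hx'2, hx'3⟩ := hpre' (D x) hx1 hx2
  obtain ⟨w, hw1, hw2, hw3⟩ := hpre' (x - x') (by rw [map_sub, hx, hx'1])
    (by rw [map_sub, hx'2, sub_self])
  have hDx : ‖D x‖ ≤ ‖D‖ * ‖x‖ := D.le_opNorm x
  have hwn : ‖w‖ ≤ C * (1 + C * ‖D‖) * ‖x‖ := by
    have h1 : ‖x - x'‖ ≤ ‖x‖ + C * (‖D‖ * ‖x‖) := by
      refine (norm_sub_le _ _).trans ?_
      have : C * ‖D x‖ ≤ C * (‖D‖ * ‖x‖) := mul_le_mul_of_nonneg_left hDx hC.le
      linarith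
    have h2 : C * ‖x - x'‖ ≤ C * (‖x‖ + C * (‖D‖ * ‖x‖)) := mul_le_mul_of_nonneg_left h1 hC.le
    calc ‖w‖ ≤ C * ‖x - x'‖ := hw3
      _ ≤ _ := h2
      _ = _ := by ring
  have hin : ⟪x, D w⟫_ℂ = ⟪P (ContinuousLinearMap.adjoint D x), w⟫_ℂ := by
    rw [← ContinuousLinearMap.adjoint_inner_left, ← selfadj hPa, hw1]
  have hsq : ‖x‖ ^ 2 ≤ ‖x‖ * (C * ‖D x‖) +
      ‖P (ContinuousLinearMap.adjoint D x)‖ * (C * (1 + C * ‖D‖) * ‖x‖) := by
    have h1 : (‖x‖ ^ 2 : ℝ) = RCLike.re ⟪x, x'⟫_ℂ + RCLike.re ⟪x, D w⟫_ℂ := by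
      rw [hw2, ← map_add, ← inner_add_right, add_sub_cancel, inner_self_eq_norm_sq]
    rw [h1]
    have h2 : RCLike.re ⟪x, x'⟫_ℂ ≤ ‖x‖ * (C * ‖D x‖) := by
      refine (RCLike.re_le_norm _).trans ((norm_inner_le_norm _ _).trans ?_)
      exact mul_le_mul_of_nonneg_left hx'3 (norm_nonneg _)
    have h3 : RCLike.re ⟪x, D w⟫_ℂ ≤
        ‖P (ContinuousLinearMap.adjoint D x)‖ * (C * (1 + C * ‖D‖) * ‖x‖) := by
      rw [hin]
      refine (RCLike.re_le_norm _).trans ((norm_inner_le_norm _ _).trans ?_)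
      exact mul_le_mul_of_nonneg_left hwn (norm_nonneg _)
    linarith
  rcases eq_or_lt_of_le (norm_nonneg x) with h0 | h0
  · rw [← h0]
    positivity
  · have h1 : ‖x‖ * ‖x‖ ≤ ‖x‖ * (C * ‖D x‖ +
        ‖P (ContinuousLinearMap.adjoint D x)‖ * (C * (1 + C * ‖D‖))) := by
      calc ‖x‖ * ‖x‖ = ‖x‖ ^ 2 := by ring
        _ ≤ _ := hsq
        _ = _ := by ring
    have h2 := le_of_mul_le_mul_left h1 h0
    have h3 : 0 ≤ ‖P (ContinuousLinearMap.adjoint D x)‖ := norm_nonneg _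
    have h4 : 0 ≤ ‖D x‖ := norm_nonneg _
    have h5 : 0 ≤ C * (1 + C * ‖D‖) := by positivity
    calc ‖x‖ ≤ _ := h2
      _ ≤ _ := by nlinarith [mul_nonneg h5 h4, mul_nonneg hC.le h3]

theorem small (V : Type) [NormedAddCommGroup V] [InnerProductSpace ℂ V] [CompleteSpace V] :
    S_SMALL V := by
  intro P D hPP hPa hPDP K hK hKx
  set Ds := ContinuousLinearMap.adjoint D with hDs
  set Δ : V →L[ℂ] V := P ∘L Ds ∘L D ∘L P + D ∘L P ∘L Ds with hΔ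
  have hadj : P ∘L Ds ∘L P = P ∘L Ds := by
    have := congrArg ContinuousLinearMap.adjoint hPDP
    simp only [ContinuousLinearMap.adjoint_comp, hPa] at this
    rw [ContinuousLinearMap.comp_assoc] at this
    exact this
  have hadj' : ∀ x, P (Ds (P x)) = P (Ds x) := by
    intro x
    have := ContinuousLinearMap.ext_iff.mp hadj x
    simpa using this
  have hΔa : ∀ x, Δ x = P (Ds (D (P x))) + D (P (Ds x)) := fun x => rfl
  have hΔP : ∀ x, Δ (P x) = Δ x := by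
    intro x
    rw [hΔa, hΔa, idem hPP, hadj']
  have hPn : ∀ x, ‖P x‖ ≤ ‖x‖ := by
    intro x
    have h1 : ‖P x‖ ^ 2 ≤ ‖x‖ * ‖P x‖ := by
      have h2 : (‖P x‖ ^ 2 : ℝ) = RCLike.re ⟪x, P x⟫_ℂ := by
        rw [← inner_self_eq_norm_sq (𝕜 := ℂ), ← selfadj hPa, idem hPP]
      rw [h2]
      exact (RCLike.re_le_norm _).trans (norm_inner_le_norm _ _)
    rcases eq_or_lt_of_le (norm_nonneg (P x)) with h0 | h0
    · rw [← h0]; exact norm_nonneg x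
    · have h3 : ‖P x‖ * ‖P x‖ ≤ ‖x‖ * ‖P x‖ := by
        calc ‖P x‖ * ‖P x‖ = ‖P x‖ ^ 2 := by ring
          _ ≤ _ := h1
      exact le_of_mul_le_mul_right h3 h0
  set δ : ℝ := 1 / (2 * K ^ 2) with hδ
  have hδ0 : 0 < δ := by positivity
  set L : ℝ := ‖Δ‖ + 1 with hL
  have hL0 : 0 < L := by positivity
  set c : ℝ := δ / L ^ 2 with hc
  have hc0 : 0 < c := by positivity
  have hre : ∀ y, P y = y → δ * ‖y‖ ^ 2 ≤ RCLike.re ⟪y, Δ y⟫_ℂ := by
    intro y hy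
    have h1 : RCLike.re ⟪y, Δ y⟫_ℂ = ‖D y‖ ^ 2 + ‖P (Ds y)‖ ^ 2 := by
      rw [hΔa, hy, inner_add_right, map_add]
      congr 1
      · rw [selfadj hPa, hy, hDs, ContinuousLinearMap.adjoint_inner_right, inner_self_eq_norm_sq]
      · rw [← ContinuousLinearMap.adjoint_inner_left, ← hDs]
        rw [← idem hPP (Ds y), selfadj hPa, idem hPP, inner_self_eq_norm_sq]
    rw [h1]
    have h2 := hKx y hy
    have h3 : ‖y‖ ^ 2 ≤ (K * (‖D y‖ + ‖P (Ds y)‖)) ^ 2 := pow_le_pow_left₀ (norm_nonneg _) h2 2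
    have h4 : (K * (‖D y‖ + ‖P (Ds y)‖)) ^ 2 ≤ 2 * K ^ 2 * (‖D y‖ ^ 2 + ‖P (Ds y)‖ ^ 2) := by
      have : (K * (‖D y‖ + ‖P (Ds y)‖)) ^ 2 = K ^ 2 * (‖D y‖ + ‖P (Ds y)‖) ^ 2 := by ring
      rw [this]
      have h5 : (‖D y‖ + ‖P (Ds y)‖) ^ 2 ≤ 2 * (‖D y‖ ^ 2 + ‖P (Ds y)‖ ^ 2) := by
        nlinarith [sq_nonneg (‖D y‖ - ‖P (Ds y)‖)]
      have h6 : 0 ≤ K ^ 2 := by positivity
      nlinarith
    rw [hδ, one_div_mul_eq_div, div_le_iff₀ (by positivity)]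
    linarith
  have hkey : ∀ y, P y = y → ‖y - (c : ℂ) • Δ y‖ ^ 2 ≤ (1 - δ ^ 2 / L ^ 2) * ‖y‖ ^ 2 := by
    intro y hy
    rw [norm_sub_sq (𝕜 := ℂ), inner_smul_right, norm_smul]
    have h1 : RCLike.re ((c : ℂ) * ⟪y, Δ y⟫_ℂ) = c * RCLike.re ⟪y, Δ y⟫_ℂ := by
      simp
    rw [h1]
    have h2 : ‖(c : ℂ)‖ = c := by
      rw [Complex.norm_real, Real.norm_of_nonneg hc0.le]
    rw [h2]
    have h3 : ‖Δ y‖ ≤ L * ‖y‖ := by
      refine (Δ.le_opNorm y).trans ?_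
      apply mul_le_mul_of_nonneg_right _ (norm_nonneg _)
      rw [hL]; linarith
    have h4 : (c * ‖Δ y‖) ^ 2 ≤ (c * (L * ‖y‖)) ^ 2 :=
      pow_le_pow_left₀ (by positivity) (mul_le_mul_of_nonneg_left h3 hc0.le) 2
    have h5 : c * (δ * ‖y‖ ^ 2) ≤ c * RCLike.re ⟪y, Δ y⟫_ℂ := mul_le_mul_of_nonneg_left (hre y hy) hc0.le
    have h6 : (c * (L * ‖y‖)) ^ 2 = δ ^ 2 / L ^ 2 * ‖y‖ ^ 2 := by
      rw [hc]; field_simp
    have h7 : c * (δ * ‖y‖ ^ 2) = δ ^ 2 / L ^ 2 * ‖y‖ ^ 2 := by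
      rw [hc]; field_simp
    nlinarith
  refine ⟨c, hc0.ne', ?_⟩
  set r : ℝ := Real.sqrt (max 0 (1 - δ ^ 2 / L ^ 2)) with hr
  have hr1 : r < 1 := by
    rw [hr, show (1 : ℝ) = Real.sqrt 1 by simp]
    apply Real.sqrt_lt_sqrt (le_max_left _ _)
    rw [max_lt_iff]
    constructor
    · norm_num
    · have : 0 < δ ^ 2 / L ^ 2 := by positivity
      linarith
  refine lt_of_le_of_lt (ContinuousLinearMap.opNorm_le_bound _ (Real.sqrt_nonneg _) ?_) hr1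
  intro x
  have h1 : (P - (c : ℂ) • Δ) x = P x - (c : ℂ) • Δ (P x) := by
    rw [hΔP]
    rfl
  rw [h1]
  have h2 := hkey (P x) (idem hPP x)
  have h3 : ‖P x - (c : ℂ) • Δ (P x)‖ ^ 2 ≤ (r * ‖x‖) ^ 2 := by
    rw [mul_pow, hr, Real.sq_sqrt (le_max_left _ _)]
    refine h2.trans ?_
    apply mul_le_mul (le_max_right _ _) _ (by positivity) (le_max_left _ _)
    exact pow_le_pow_left₀ (norm_nonneg _) (hPn x) 2
  exact (sq_le_sq₀ (norm_nonneg _) (by positivity)).mp h3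

end

end Pool.Agent.Q58.ZD
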