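import Pool.Agent.Q169.ZD.Stm

/-!
# Project ZD, job RIGHT
-/

set_option autoImplicit false

open scoped InnerProductSpace

namespace Pool.Agent.Q58.ZD

open Pool.Agent.Q169.ZD
open Pool.Agent.H496R3.ZS (Ell permIso dl dl_apply inner_dl_left)

noncomputable section

open scoped Classical

variable {G : Type} [Group G]

theorem rm_inv (I : Type) (h : G) : (rm I h)⁻¹ = rm I h⁻¹ := by
  apply Equiv.ext
  rintro ⟨i, g⟩
  rw [Equiv.Perm.inv_def, Equiv.symm_apply_eq, rm_apply, rm_apply]
  simp

theorem rS_apply (E : Ext G) (I : Type) (q : G → ℝ) (s : G) (F : Ell (I × G)) (j : I) (g : G) :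
    rS E I q s F (j, g) = ((Real.sqrt (q s) : ℝ) : ℂ) * F (j, g * s) +
      ((q s - 1 : ℝ) : ℂ) * (if E.len (g * s) < E.len g then F (j, g) else 0) := by
  have h1 : rS E I q s F = ((Real.sqrt (q s) : ℝ) : ℂ) • pm (rm I s) F +
      ((q s - 1 : ℝ) : ℂ) • msk {p : I × G | E.len (p.2 * s) < E.len p.2} F := rfl
  have h2 : ∀ (A B : Ell (I × G)) (p : I × G), (A + B : Ell (I × G)) p = A p + B p :=
    fun _ _ _ => rfl
  have h3 : ∀ (c : ℂ) (A : Ell (I × G)) (p : I × G), (c • A : Ell (I × G)) p = c * A p :=
    fun _ _ _ => rfl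
  rw [h1, h2, h3, h3, pm_apply, msk_apply, rm_apply]
  simp only [Set.mem_setOf_eq]

theorem len_mul_zero (E : Ext G) {h : G} (hh : E.len h = 0) (g : G) : E.len (g * h) = E.len g := by
  have h1 := E.len_mul g h
  have h2 := E.len_mul (g * h) h⁻¹
  rw [mul_inv_cancel_right, E.len_inv, hh] at h2
  omega

theorem right (G : Type) [Group G] (E : Ext G) (I : Type) [Fintype I] (C : Cx E I) :
    S_RIGHT G E I C := by
  intro q hq
  refine ⟨?_, ?_, ?_, ?_⟩
  · intro s hs
    have hinv : s⁻¹ = s := inv_eq_of_mul_eq_one_left (E.sq s hs)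
    unfold rS
    rw [map_add, map_smulₛₗ, map_smulₛₗ, adjoint_pm, adjoint_msk, rm_inv, hinv]
    simp only [Complex.conj_ofReal]
  · intro h
    unfold rH
    rw [adjoint_pm, rm_inv]
  · intro s hs F hF j t ht g hg
    have htS : t ∈ E.S := C.sub j ht
    rw [rS_apply, rS_apply]
    have h1 := E.len_muls s hs g
    have h2 := E.len_muls s hs (t * g)
    have h3 := E.len_smul t htS g
    have h4 := E.len_smul t htS (g * s)
    have e0 : t * (g * s) = t * g * s := (mul_assoc _ _ _).symm
    rw [e0] at h4
    have hFg := hF j t ht g hg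
    rcases h1 with h1 | h1
    · rcases h2 with h2 | h2
      · -- (i)
        have h5 := hF j t ht (g * s) (by rw [e0]; omega)
        rw [e0] at h5
        rw [if_neg (by omega), if_neg (by omega), h5]
        ring
      · -- (ii)
        have h5 : t * g = g * s := E.lift s hs t htS g hg (by omega) (by omega)
        have h6 : q t = q s := by
          have h7 := hq.smul t htS g hg
          rw [h5, hq.mul s hs g (by omega), mul_comm] at h7
          exact (mul_right_cancel₀ (hq.pos g).ne' h7).symm
        have h8 : t * g * s = g := by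
          rw [h5, mul_assoc, E.sq s hs, mul_one]
        rw [if_pos (by omega), if_neg (by omega), h8, hFg, ← h5, hFg, h6]
        have h9 : (((Real.sqrt (q s) : ℝ) : ℂ)) * ((Real.sqrt (q s) : ℝ) : ℂ) = ((q s : ℝ) : ℂ) := by
          rw [← Complex.ofReal_mul, Real.mul_self_sqrt (hq.pos s).le]
        have h10 : ((q s - 1 : ℝ) : ℂ) = ((q s : ℝ) : ℂ) - 1 := by push_cast; ring
        rw [h10, ← h9]
        ring
    · rcases h2 with h2 | h2
      · -- (iv)
        omega
      · -- (iii)
        have h5 := hF j t ht (g * s) (by rw [e0]; omega)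
        rw [e0] at h5
        rw [if_pos (by omega), if_pos (by omega), h5, hFg]
        ring
  · intro h hh F hF j t ht g hg
    have h1 : ∀ p : I × G, rH I h F p = F (p.1, p.2 * h) := fun p => rfl
    rw [h1, h1]
    simp only
    rw [mul_assoc]
    apply hF j t ht (g * h)
    rw [← mul_assoc, len_mul_zero E hh, len_mul_zero E hh]
    exact hg

end

end Pool.Agent.Q58.ZD
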